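import Mathlib
import Pool.Agent.Lib.MP_8eff38_lc.Easy

set_option autoImplicit false

namespace Pool.Agent.Results.MP_8eff38_lc.Dichotomy

open Pool.Agent.Lib.MP_8eff38_lc

theorem result (heth : AeETH) (z : ℕ → ℕ) (hz : ∀ m, z m ≤ m) :
    InP z ↔ (∃ c, ∀ m, min (z m) (m - z m) ≤ c) ∧
      N68a2faeb.IsPolyTime fun l : List Bool => z l.length := by
  refine ⟨fun h => ⟨?_, polyTime_of_inP hz h⟩, fun h => inP_of_bounded h.1.choose_spec h.2⟩
  by_contra hb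
  push Not at hb
  obtain ⟨δ, hδ, hn⟩ := heth
  obtain ⟨k, hk, hc⟩ := core hz h 2 δ hδ
  obtain ⟨g, hg, hφ⟩ := hc 1 Nat.one_pos
  obtain ⟨N₀, hN⟩ := (hn g hg).bddAbove
  obtain ⟨m, hm⟩ := hb (2 * (k * 2 ^ (N₀ + 2)) ^ 3)
  have hex : ∃ s, m < 2 * (k * 2 ^ (s + 1)) ^ 3 := by
    refine ⟨m, ?_⟩
    have h1 : m + 1 < 2 ^ (m + 1) := Nat.lt_two_pow_self
    generalize 2 ^ (m + 1) = B at h1
    have h2 : B ≤ k * B := Nat.le_mul_of_pos_left B hk
    have h3 : k * B ≤ (k * B) ^ 3 := Nat.le_self_pow (by norm_num) _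
    omega
  have hmono : ∀ a b, a ≤ b → 2 * (k * 2 ^ a) ^ 3 ≤ 2 * (k * 2 ^ b) ^ 3 := fun a b hab => by
    gcongr; norm_num
  have hm' : 2 * (k * 2 ^ (N₀ + 2)) ^ 3 ≤ m := le_trans hm.le ((min_le_left _ _).trans (hz m))
  have hs1 := Nat.find_spec hex
  have hs2 : N₀ + 2 ≤ Nat.find hex := by
    by_contra hlt
    have := hmono (Nat.find hex + 1) (N₀ + 2) (by omega)
    omega
  obtain ⟨t, ht⟩ : ∃ t, Nat.find hex = t + 1 := ⟨Nat.find hex - 1, by omega⟩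
  have hs3 := Nat.find_min hex (m := t) (by omega)
  rw [ht] at hs1 hs2
  have : k * t ≤ N₀ := by
    refine hN fun φ hφN => hφ φ ⟨m, ?_, ?_, ?_⟩
    · rw [hφN, Nat.mul_div_cancel_left _ hk]; omega
    · rw [hφN, Nat.mul_div_cancel_left _ hk]
      have h1 : 2 ≤ 2 ^ (t + 1) := Nat.le_self_pow (by omega) 2
      rw [pow_succ 2 (t + 1)] at hs1
      generalize 2 ^ (t + 1) = B at *
      have h2 : B ≤ k * B := Nat.le_mul_of_pos_left B hk
      have h3 : 2 ^ 3 ≤ (k * B) ^ 3 := Nat.pow_le_pow_left (by omega) 3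
      have h4 : (k * (B * 2)) ^ 3 = 8 * (k * B) ^ 3 := by ring
      rw [h4] at hs1
      generalize (k * B) ^ 3 = W at *
      nlinarith
    · refine le_trans ?_ hm.le
      have h1 : k ≤ k * 2 ^ (N₀ + 2) := Nat.le_mul_of_pos_right k (by positivity)
      have := Nat.pow_le_pow_left h1 3
      omega
  nlinarith

end Pool.Agent.Results.MP_8eff38_lc.Dichotomy
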