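import Mathlib
import Pool.Agent.Lib.MP_8eff38_lc.Alg

set_option autoImplicit false

namespace Pool.Agent.Results.MP_8eff38_lc.EthHard

open Pool.Agent.Lib.MP_8eff38_lc

theorem result (z : ℕ → ℕ) (hz : ∀ m, z m ≤ m) (C : ℕ)
    (hu : ∀ K, ∃ M₀, ∀ M, M₀ ≤ M → ∃ m, M ≤ m ∧ m ≤ M ^ C ∧ K ≤ min (z m) (m - z m))
    (heth : ETH) : ¬ InP z := by
  intro h
  obtain ⟨δ, hδ, hn⟩ := heth
  obtain ⟨k, hk, hc⟩ := core hz h C δ hδ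
  obtain ⟨M₀, hM⟩ := hu (k ^ 3)
  obtain ⟨g, hg, hφ⟩ := hc (M₀ + 1) (Nat.succ_pos _)
  refine hn ⟨g, hg, fun φ => hφ φ (hM _ ?_)⟩
  have h1 : M₀ ≤ 2 ^ (nvars φ / k + (M₀ + 1)) :=
    le_trans ((Nat.le_succ _).trans (Nat.le_add_left _ _)) (Nat.lt_two_pow_self).le
  generalize 2 ^ (nvars φ / k + (M₀ + 1)) = B at h1
  have h2 : B ≤ k * B := Nat.le_mul_of_pos_left B hk
  have h3 : k * B ≤ (k * B) ^ 3 := Nat.le_self_pow (by norm_num) _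
  omega

end Pool.Agent.Results.MP_8eff38_lc.EthHard
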