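import Mathlib
import Pool.Agent.Lib.MP_8eff38_lc.FptMain

set_option autoImplicit false

namespace Pool.Agent.Results.MP_8eff38_lc.FptClique

open Pool.Agent.Lib.MP_8eff38_lc

theorem result :
    (∃ z : ℕ → ℕ, (∀ m, z m ≤ m) ∧ (Eff fun m => min (z m) (m - z m)) ∧ InP z) ↔ FPT Clique :=
  ⟨fun ⟨_, h1, h2, h3⟩ => fpt_clique h1 h2 h3, inP_of_clique⟩

end Pool.Agent.Results.MP_8eff38_lc.FptClique
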