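import Mathlib
import Pool.Agent.Lib.MP_8eff38_lc.FptMain

set_option autoImplicit false

namespace Pool.Agent.Results.MP_8eff38_lc.FptCoverage

open Pool.Agent.Lib.MP_8eff38_lc

theorem result :
    (∃ z : ℕ → ℕ, (∀ m, 2 * z m ≤ m) ∧ Eff z ∧ InP z) ↔ FPT MaxCov :=
  ⟨fun ⟨_, h1, h2, h3⟩ => fpt_cov h1 h2 h3, inP_of_cov⟩

end Pool.Agent.Results.MP_8eff38_lc.FptCoverage
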